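import Pool.Agent.Helper19.PS.Defs

/-!
# PS-13: Gaussian integrals with exponential weights (MP_19c155_gt)
-/

open MeasureTheory Set Metric Filter Module Matrix
open scoped NNReal Topology RealInnerProductSpace ENNReal Real

namespace Pool.Agent.Helper19.PS

open Pool.Agent.Helper20.VF (gm gw)
open Pool.Agent.Helper20.VF

section gen

variable {E : Type*} [NormedAddCommGroup E] [InnerProductSpace ℝ E] [FiniteDimensional ℝ E]
  [MeasurableSpace E] [BorelSpace E]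

/-- scaling of a Gaussian integral. -/
theorem ps13_scaled {f : E → ℝ} {κ : ℝ} (hf : ∀ s : ℝ, 0 < s → ∀ x, f (s • x) = s ^ κ * f x)
    (hint : Integrable (fun x => f x * gw x)) {a : ℝ} (ha : 0 < a) :
    Integrable (fun x => f x * Real.exp (-(a * ‖x‖ ^ 2) / 2)) ∧
      ∫ x, f x * Real.exp (-(a * ‖x‖ ^ 2) / 2) =
        a ^ (-(((finrank ℝ E : ℝ) + κ) / 2)) * ∫ x, f x * gw x := by
  have hs : 0 < √a := Real.sqrt_pos.2 ha
  have h1 : ∀ x : E, f x * Real.exp (-(a * ‖x‖ ^ 2) / 2) =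
      (√a) ^ (-κ) * (f (√a • x) * gw (√a • x)) := by
    intro x
    rw [hf _ hs, gw, norm_smul, Real.norm_eq_abs, abs_of_pos hs, mul_pow, Real.sq_sqrt ha.le,
      ← mul_assoc, ← mul_assoc, ← Real.rpow_add hs, neg_add_cancel, Real.rpow_zero, one_mul]
  have h2 : (fun x : E => f x * Real.exp (-(a * ‖x‖ ^ 2) / 2)) =
      fun x => (√a) ^ (-κ) * ((fun z => f z * gw z) (√a • x)) := by
    funext x; exact h1 x
  rw [h2]
  refine ⟨(hint.comp_smul hs.ne').const_mul _, ?_⟩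
  have h3 := Measure.integral_comp_smul (volume : Measure E) (fun z => f z * gw z) (√a)
  rw [integral_const_mul, h3, smul_eq_mul, ← mul_assoc]
  congr 1
  rw [abs_of_pos (by positivity), ← Real.rpow_natCast, ← Real.rpow_neg hs.le, ← Real.rpow_add hs,
    Real.sqrt_eq_rpow, ← Real.rpow_mul ha.le]
  congr 1
  ring

theorem ps13_mom0 : Integrable (fun x : E => (1 : ℝ) * gw x) ∧
    ∫ x : E, (1 : ℝ) * gw x = (2 * π) ^ ((finrank ℝ E : ℝ) / 2) := by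
  have h : ∫ x : E, (1 : ℝ) * gw x = (2 * π) ^ ((finrank ℝ E : ℝ) / 2) := by
    simp only [one_mul]
    exact Zg_eq
  refine ⟨?_, h⟩
  by_contra hcon
  rw [integral_undef hcon] at h
  have : (0 : ℝ) < (2 * π) ^ ((finrank ℝ E : ℝ) / 2) := by positivity
  exact this.ne h

theorem ps13_mom2 : Integrable (fun x : E => ‖x‖ ^ 2 * gw x) ∧
    ∫ x : E, ‖x‖ ^ 2 * gw x = (finrank ℝ E : ℝ) * (2 * π) ^ ((finrank ℝ E : ℝ) / 2) := by
  rcases subsingleton_or_nontrivial E with h | h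
  · have h0 : ∀ x : E, ‖x‖ = 0 := fun x => by rw [Subsingleton.elim x 0, norm_zero]
    have h1 : (fun x : E => ‖x‖ ^ 2 * gw x) = fun _ => 0 := by
      funext x; rw [h0]; simp
    rw [h1]
    refine ⟨integrable_zero _ _ _, ?_⟩
    rw [finrank_zero_of_subsingleton]
    simp
  · refine ⟨integrable_norm_pow_gw 2, ?_⟩
    have h1 : Hom 0 (fun _ : E => (1 : ℝ)) := ⟨continuous_const, fun r y => by simp⟩
    have h2 := h1.integral_mul_sq
    have h3 := (ps13_mom0 (E := E)).2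
    rw [h3] at h2
    simpa using h2

theorem ps13_mom4 : Integrable (fun x : E => ‖x‖ ^ 4 * gw x) ∧
    ∫ x : E, ‖x‖ ^ 4 * gw x = (finrank ℝ E : ℝ) * ((finrank ℝ E : ℝ) + 2) *
      (2 * π) ^ ((finrank ℝ E : ℝ) / 2) := by
  rcases subsingleton_or_nontrivial E with h | h
  · have h0 : ∀ x : E, ‖x‖ = 0 := fun x => by rw [Subsingleton.elim x 0, norm_zero]
    have h1 : (fun x : E => ‖x‖ ^ 4 * gw x) = fun _ => 0 := by
      funext x; rw [h0]; simp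
    rw [h1]
    refine ⟨integrable_zero _ _ _, ?_⟩
    rw [finrank_zero_of_subsingleton]
    simp
  · refine ⟨integrable_norm_pow_gw 4, ?_⟩
    have h2 := (Hom.norm_sq (E := E)).integral_mul_sq
    rw [(ps13_mom2 (E := E)).2] at h2
    have h3 : ∀ x : E, ‖x‖ ^ 4 * gw x = ‖x‖ ^ 2 * ‖x‖ ^ 2 * gw x := fun x => by ring
    simp only [h3]
    rw [h2]
    push_cast
    ring

theorem ps13_lint {f : E → ℝ} {κ : ℝ} (hf0 : ∀ x, 0 ≤ f x)
    (hf : ∀ s : ℝ, 0 < s → ∀ x, f (s • x) = s ^ κ * f x)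
    (hint : Integrable (fun x => f x * gw x)) {a : ℝ} (ha : 0 < a) :
    ∫⁻ x, ENNReal.ofReal (f x * Real.exp (-(a * ‖x‖ ^ 2) / 2)) =
      ENNReal.ofReal (a ^ (-(((finrank ℝ E : ℝ) + κ) / 2)) * ∫ x, f x * gw x) := by
  obtain ⟨h1, h2⟩ := ps13_scaled hf hint ha
  rw [← ofReal_integral_eq_lintegral_ofReal h1
    (Eventually.of_forall fun x => mul_nonneg (hf0 x) (Real.exp_pos _).le), h2]

theorem ps13_l0 {a : ℝ} (ha : 0 < a) :
    ∫⁻ x : E, ENNReal.ofReal (Real.exp (-(a * ‖x‖ ^ 2) / 2)) =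
      ENNReal.ofReal (a ^ (-((finrank ℝ E : ℝ) / 2)) * (2 * π) ^ ((finrank ℝ E : ℝ) / 2)) := by
  have h := ps13_lint (E := E) (f := fun _ => 1) (κ := 0) (fun _ => zero_le_one)
    (fun s _ x => by simp) ps13_mom0.1 ha
  rw [ps13_mom0.2, add_zero] at h
  simpa using h

theorem ps13_l2 {a : ℝ} (ha : 0 < a) :
    ∫⁻ x : E, ENNReal.ofReal (‖x‖ ^ 2 * Real.exp (-(a * ‖x‖ ^ 2) / 2)) =
      ENNReal.ofReal (a ^ (-(((finrank ℝ E : ℝ) + 2) / 2)) *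
        ((finrank ℝ E : ℝ) * (2 * π) ^ ((finrank ℝ E : ℝ) / 2))) := by
  have h := ps13_lint (E := E) (f := fun x => ‖x‖ ^ 2) (κ := 2) (fun x => by positivity)
    (fun s hs x => by rw [norm_smul, Real.norm_eq_abs, abs_of_pos hs, mul_pow]; norm_num)
    ps13_mom2.1 ha
  rw [ps13_mom2.2] at h
  exact h

theorem ps13_l4 {a : ℝ} (ha : 0 < a) :
    ∫⁻ x : E, ENNReal.ofReal (‖x‖ ^ 4 * Real.exp (-(a * ‖x‖ ^ 2) / 2)) =
      ENNReal.ofReal (a ^ (-(((finrank ℝ E : ℝ) + 4) / 2)) *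
        ((finrank ℝ E : ℝ) * ((finrank ℝ E : ℝ) + 2) * (2 * π) ^ ((finrank ℝ E : ℝ) / 2))) := by
  have h := ps13_lint (E := E) (f := fun x => ‖x‖ ^ 4) (κ := 4) (fun x => by positivity)
    (fun s hs x => by
      rw [norm_smul, Real.norm_eq_abs, abs_of_pos hs, mul_pow]
      congr 1
      exact_mod_cast (Real.rpow_natCast s 4).symm)
    ps13_mom4.1 ha
  rw [ps13_mom4.2] at h
  exact h

end gen

theorem ps13_prod {d : ℕ} (u : ℝ → ℝ) (v : EuclideanSpace ℝ (Fin d) → ℝ) (hu : ∀ τ, 0 ≤ u τ)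
    {U V : ℝ} (hU0 : 0 ≤ U) (hU : ∫⁻ τ, ENNReal.ofReal (u τ) = ENNReal.ofReal U)
    (hV : ∫⁻ y, ENNReal.ofReal (v y) = ENNReal.ofReal V) :
    ∫⁻ τ : ℝ, ∫⁻ y, ENNReal.ofReal (u τ * v y) = ENNReal.ofReal (U * V) := by
  have h1 : ∀ τ, ∫⁻ y, ENNReal.ofReal (u τ * v y) = ENNReal.ofReal (u τ) * ENNReal.ofReal V := by
    intro τ
    simp only [ENNReal.ofReal_mul (hu τ)]
    rw [lintegral_const_mul' _ _ ENNReal.ofReal_ne_top, hV]
  simp only [h1]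
  rw [lintegral_mul_const' _ _ ENNReal.ofReal_ne_top, hU, ENNReal.ofReal_mul hU0]

theorem JJ_tau (d : ℕ) (t : ℝ) (ht : t < 1 / 2) :
    JJ d (fun τ y => τ ^ 2 * Real.exp (t * (‖y‖ ^ 2 + τ ^ 2)))
      = ENNReal.ofReal ((2 * π) ^ (((d : ℝ) + 1) / 2) * (1 - 2 * t) ^ (-(((d : ℝ) + 3) / 2))) := by
  have ha : 0 < 1 - 2 * t := by linarith
  set a := 1 - 2 * t with hadef
  have hpi : (0 : ℝ) < 2 * π := by positivity
  have hU := ps13_l2 (E := ℝ) ha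
  have hV := ps13_l0 (E := EuclideanSpace ℝ (Fin d)) ha
  simp only [finrank_self, finrank_euclideanSpace_fin, Nat.cast_one, Real.norm_eq_abs,
    sq_abs] at hU hV
  rw [JJ]
  have h1 : ∀ (τ : ℝ) (y : EuclideanSpace ℝ (Fin d)),
      τ ^ 2 * Real.exp (t * (‖y‖ ^ 2 + τ ^ 2)) * (gw y * Real.exp (-τ ^ 2 / 2)) =
      (τ ^ 2 * Real.exp (-(a * τ ^ 2) / 2)) * Real.exp (-(a * ‖y‖ ^ 2) / 2) := by
    intro τ y
    rw [gw, mul_assoc, mul_assoc, ← Real.exp_add, ← Real.exp_add, ← Real.exp_add]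
    congr 2
    rw [hadef]; ring
  simp only [h1]
  rw [ps13_prod _ _ (fun τ => by positivity) (by positivity) hU hV]
  congr 1
  have e1 : (2 * π) ^ (((d : ℝ) + 1) / 2) = (2 * π) ^ ((1 : ℝ) / 2) * (2 * π) ^ ((d : ℝ) / 2) := by
    rw [← Real.rpow_add hpi]; congr 1; ring
  have e2 : a ^ (-(((d : ℝ) + 3) / 2)) = a ^ (-(((1 : ℝ) + 2) / 2)) * a ^ (-((d : ℝ) / 2)) := by
    rw [← Real.rpow_add ha]; congr 1; ring
  rw [e1, e2]
  ring

theorem JJ_sq (d : ℕ) (t : ℝ) (ht : t < 1 / 2) :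
    JJ d (fun τ y => (‖y‖ ^ 2 + τ ^ 2) ^ 2 * Real.exp (t * (‖y‖ ^ 2 + τ ^ 2)))
      = ENNReal.ofReal ((2 * π) ^ (((d : ℝ) + 1) / 2) * ((d + 1) * (d + 3))
        * (1 - 2 * t) ^ (-(((d : ℝ) + 5) / 2))) := by
  have ha : 0 < 1 - 2 * t := by linarith
  set a := 1 - 2 * t with hadef
  have hpi : (0 : ℝ) < 2 * π := by positivity
  have hU0 := ps13_l0 (E := ℝ) ha
  have hU2 := ps13_l2 (E := ℝ) ha
  have hU4 := ps13_l4 (E := ℝ) ha
  have hV0 := ps13_l0 (E := EuclideanSpace ℝ (Fin d)) ha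
  have hV2 := ps13_l2 (E := EuclideanSpace ℝ (Fin d)) ha
  have hV4 := ps13_l4 (E := EuclideanSpace ℝ (Fin d)) ha
  have h4 : ∀ τ : ℝ, |τ| ^ 4 = τ ^ 4 := fun τ => by
    rw [show (4 : ℕ) = 2 * 2 by rfl, pow_mul, pow_mul, sq_abs]
  simp only [finrank_self, finrank_euclideanSpace_fin, Nat.cast_one, Real.norm_eq_abs,
    sq_abs, h4] at hU0 hU2 hU4 hV0 hV2 hV4
  rw [JJ]
  have h1 : ∀ (τ : ℝ) (y : EuclideanSpace ℝ (Fin d)),
      ENNReal.ofReal ((‖y‖ ^ 2 + τ ^ 2) ^ 2 * Real.exp (t * (‖y‖ ^ 2 + τ ^ 2)) *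
        (gw y * Real.exp (-τ ^ 2 / 2))) =
      ENNReal.ofReal (Real.exp (-(a * τ ^ 2) / 2) * (‖y‖ ^ 4 * Real.exp (-(a * ‖y‖ ^ 2) / 2))) +
      (ENNReal.ofReal ((τ ^ 2 * Real.exp (-(a * τ ^ 2) / 2)) *
        (2 * (‖y‖ ^ 2 * Real.exp (-(a * ‖y‖ ^ 2) / 2)))) +
      ENNReal.ofReal ((τ ^ 4 * Real.exp (-(a * τ ^ 2) / 2)) *
        Real.exp (-(a * ‖y‖ ^ 2) / 2))) := by
    intro τ y
    rw [← ENNReal.ofReal_add (by positivity) (by positivity),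
      ← ENNReal.ofReal_add (by positivity) (by positivity)]
    congr 1
    have e : Real.exp (t * (‖y‖ ^ 2 + τ ^ 2)) * (gw y * Real.exp (-τ ^ 2 / 2)) =
        Real.exp (-(a * τ ^ 2) / 2) * Real.exp (-(a * ‖y‖ ^ 2) / 2) := by
      rw [gw, ← Real.exp_add, ← Real.exp_add, ← Real.exp_add]
      congr 1
      rw [hadef]; ring
    rw [mul_assoc, e]
    ring
  simp only [h1]
  have hV2' : ∫⁻ y : EuclideanSpace ℝ (Fin d),
      ENNReal.ofReal (2 * (‖y‖ ^ 2 * Real.exp (-(a * ‖y‖ ^ 2) / 2))) =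
      ENNReal.ofReal (2 * (a ^ (-(((d : ℝ) + 2) / 2)) * ((d : ℝ) * (2 * π) ^ ((d : ℝ) / 2)))) := by
    simp only [ENNReal.ofReal_mul (zero_le_two : (0 : ℝ) ≤ 2)]
    rw [lintegral_const_mul' _ _ ENNReal.ofReal_ne_top, hV2]
  have hm : ∀ u : ℝ → ℝ, ∀ v : EuclideanSpace ℝ (Fin d) → ℝ, Continuous u → Continuous v →
      Measurable (fun τ : ℝ => ∫⁻ y, ENNReal.ofReal (u τ * v y)) := by
    intro u v hu hv
    apply Measurable.lintegral_prod_right'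
      (f := fun p : ℝ × EuclideanSpace ℝ (Fin d) => ENNReal.ofReal (u p.1 * v p.2))
    exact (((hu.comp continuous_fst).mul (hv.comp continuous_snd)).measurable).ennreal_ofReal
  have hmy : ∀ (τ : ℝ), ∀ u : ℝ → ℝ, ∀ v : EuclideanSpace ℝ (Fin d) → ℝ, Continuous v →
      Measurable (fun y => ENNReal.ofReal (u τ * v y)) := by
    intro τ u v hv
    exact ((continuous_const.mul hv).measurable).ennreal_ofReal
  have h2 : ∀ τ : ℝ, ∫⁻ y : EuclideanSpace ℝ (Fin d),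
      (ENNReal.ofReal (Real.exp (-(a * τ ^ 2) / 2) *
        (‖y‖ ^ 4 * Real.exp (-(a * ‖y‖ ^ 2) / 2))) +
      (ENNReal.ofReal ((τ ^ 2 * Real.exp (-(a * τ ^ 2) / 2)) *
        (2 * (‖y‖ ^ 2 * Real.exp (-(a * ‖y‖ ^ 2) / 2)))) +
      ENNReal.ofReal ((τ ^ 4 * Real.exp (-(a * τ ^ 2) / 2)) *
        Real.exp (-(a * ‖y‖ ^ 2) / 2)))) =
      (∫⁻ y : EuclideanSpace ℝ (Fin d), ENNReal.ofReal (Real.exp (-(a * τ ^ 2) / 2) *
        (‖y‖ ^ 4 * Real.exp (-(a * ‖y‖ ^ 2) / 2)))) +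
      ((∫⁻ y : EuclideanSpace ℝ (Fin d), ENNReal.ofReal ((τ ^ 2 * Real.exp (-(a * τ ^ 2) / 2)) *
        (2 * (‖y‖ ^ 2 * Real.exp (-(a * ‖y‖ ^ 2) / 2))))) +
      ∫⁻ y : EuclideanSpace ℝ (Fin d), ENNReal.ofReal ((τ ^ 4 * Real.exp (-(a * τ ^ 2) / 2)) *
        Real.exp (-(a * ‖y‖ ^ 2) / 2))) := by
    intro τ
    rw [lintegral_add_left (hmy τ (fun τ => Real.exp (-(a * τ ^ 2) / 2)) _ (by fun_prop)),
      lintegral_add_left (hmy τ (fun τ => τ ^ 2 * Real.exp (-(a * τ ^ 2) / 2)) _ (by fun_prop))]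
  simp only [h2]
  rw [lintegral_add_left (hm (fun τ => Real.exp (-(a * τ ^ 2) / 2)) _ (by fun_prop)
      (by fun_prop)),
    lintegral_add_left (hm (fun τ => τ ^ 2 * Real.exp (-(a * τ ^ 2) / 2)) _ (by fun_prop)
      (by fun_prop)),
    ps13_prod _ _ (fun τ => by positivity) (by positivity) hU0 hV4,
    ps13_prod _ _ (fun τ => by positivity) (by positivity) hU2 hV2',
    ps13_prod _ _ (fun τ => by positivity) (by positivity) hU4 hV0,
    ← ENNReal.ofReal_add (by positivity) (by positivity),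
    ← ENNReal.ofReal_add (by positivity) (by positivity)]
  congr 1
  have e1 : (2 * π) ^ (((d : ℝ) + 1) / 2) = (2 * π) ^ ((1 : ℝ) / 2) * (2 * π) ^ ((d : ℝ) / 2) := by
    rw [← Real.rpow_add hpi]; congr 1; ring
  have e2 : a ^ (-((1 : ℝ) / 2)) * a ^ (-(((d : ℝ) + 4) / 2)) = a ^ (-(((d : ℝ) + 5) / 2)) := by
    rw [← Real.rpow_add ha]; congr 1; ring
  have e3 : a ^ (-(((1 : ℝ) + 2) / 2)) * a ^ (-(((d : ℝ) + 2) / 2)) =
      a ^ (-(((d : ℝ) + 5) / 2)) := by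
    rw [← Real.rpow_add ha]; congr 1; ring
  have e4 : a ^ (-(((1 : ℝ) + 4) / 2)) * a ^ (-((d : ℝ) / 2)) = a ^ (-(((d : ℝ) + 5) / 2)) := by
    rw [← Real.rpow_add ha]; congr 1; ring
  rw [e1]
  set P := (2 * π) ^ ((1 : ℝ) / 2)
  set Q := (2 * π) ^ ((d : ℝ) / 2)
  calc _ = (a ^ (-((1 : ℝ) / 2)) * a ^ (-(((d : ℝ) + 4) / 2))) * (P * Q * (d * (d + 2))) +
        ((a ^ (-(((1 : ℝ) + 2) / 2)) * a ^ (-(((d : ℝ) + 2) / 2))) * (P * Q * (2 * d)) +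
        (a ^ (-(((1 : ℝ) + 4) / 2)) * a ^ (-((d : ℝ) / 2))) * (P * Q * 3)) := by ring
    _ = _ := by rw [e2, e3, e4]; ring

theorem ps13_gm_sq (j : ℕ) : gm (j + 1) ^ 2 ≤ gm j * gm (j + 2) := by
  have h1 := Real.Gamma_mul_add_mul_le_rpow_Gamma_mul_rpow_Gamma
    (s := ((j : ℝ) + 1) / 2) (t := (((j + 2 : ℕ) : ℝ) + 1) / 2) (a := 1 / 2) (b := 1 / 2)
    (by positivity) (by positivity) (by norm_num) (by norm_num) (by norm_num)
  have h2 : (1 : ℝ) / 2 * (((j : ℝ) + 1) / 2) + 1 / 2 * ((((j + 2 : ℕ) : ℝ) + 1) / 2) =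
      (((j + 1 : ℕ) : ℝ) + 1) / 2 := by push_cast; ring
  rw [h2] at h1
  have g0 : 0 < Real.Gamma (((j : ℝ) + 1) / 2) := Real.Gamma_pos_of_pos (by positivity)
  have g1 : 0 < Real.Gamma ((((j + 1 : ℕ) : ℝ) + 1) / 2) := Real.Gamma_pos_of_pos (by positivity)
  have g2 : 0 < Real.Gamma ((((j + 2 : ℕ) : ℝ) + 1) / 2) := Real.Gamma_pos_of_pos (by positivity)
  have h3 : Real.Gamma ((((j + 1 : ℕ) : ℝ) + 1) / 2) ^ 2 ≤
      Real.Gamma (((j : ℝ) + 1) / 2) * Real.Gamma ((((j + 2 : ℕ) : ℝ) + 1) / 2) := by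
    calc Real.Gamma ((((j + 1 : ℕ) : ℝ) + 1) / 2) ^ 2 ≤
        (Real.Gamma (((j : ℝ) + 1) / 2) ^ ((1 : ℝ) / 2) *
          Real.Gamma ((((j + 2 : ℕ) : ℝ) + 1) / 2) ^ ((1 : ℝ) / 2)) ^ 2 :=
          pow_le_pow_left₀ g1.le h1 2
      _ = _ := by
          rw [mul_pow, ← Real.rpow_natCast, ← Real.rpow_natCast, ← Real.rpow_mul g0.le,
            ← Real.rpow_mul g2.le]
          norm_num
  rw [gm_eq, gm_eq, gm_eq]
  have e : ((2 : ℝ) ^ ((((j + 1 : ℕ) : ℝ) + 1) / 2)) ^ 2 =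
      (2 : ℝ) ^ (((j : ℝ) + 1) / 2) * (2 : ℝ) ^ ((((j + 2 : ℕ) : ℝ) + 1) / 2) := by
    rw [← Real.rpow_natCast, ← Real.rpow_mul (by norm_num), ← Real.rpow_add (by norm_num)]
    congr 1
    push_cast
    ring
  calc ((2 : ℝ) ^ ((((j + 1 : ℕ) : ℝ) + 1) / 2) / 2 *
        Real.Gamma ((((j + 1 : ℕ) : ℝ) + 1) / 2)) ^ 2 =
      ((2 : ℝ) ^ ((((j + 1 : ℕ) : ℝ) + 1) / 2)) ^ 2 / 4 *
        Real.Gamma ((((j + 1 : ℕ) : ℝ) + 1) / 2) ^ 2 := by ring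
    _ ≤ ((2 : ℝ) ^ ((((j + 1 : ℕ) : ℝ) + 1) / 2)) ^ 2 / 4 *
        (Real.Gamma (((j : ℝ) + 1) / 2) * Real.Gamma ((((j + 2 : ℕ) : ℝ) + 1) / 2)) :=
        mul_le_mul_of_nonneg_left h3 (by positivity)
    _ = _ := by rw [e]; ring

/-- `E 1/|y|`. -/
theorem ps13_inv (d : ℕ) (hd : 3 ≤ d) :
    Integrable (fun y : EuclideanSpace ℝ (Fin d) => ‖y‖⁻¹ * gw y) ∧
      ∫ y : EuclideanSpace ℝ (Fin d), ‖y‖⁻¹ * gw y ≤
        (2 * π) ^ ((d : ℝ) / 2) / √((d : ℝ) - 2) := by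
  have : Nontrivial (EuclideanSpace ℝ (Fin d)) := by
    have : NeZero d := ⟨by omega⟩
    infer_instance
  set E := EuclideanSpace ℝ (Fin d)
  have hfr : finrank ℝ E = d := finrank_euclideanSpace_fin
  have h1 := integral_polar_mul (E := E) (fun y => ‖y‖⁻¹ * gw y) (fun _ => 1)
    (fun r => r⁻¹ * Real.exp (-r ^ 2 / 2)) (by
      intro u hu r hr
      rw [gw, norm_smul, hu, mul_one, Real.norm_eq_abs, abs_of_pos hr, one_mul])
  have h2 := integral_polar_mul (E := E) (fun y => 1 * gw y) (fun _ => 1)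
    (fun r => Real.exp (-r ^ 2 / 2)) (by
      intro u hu r hr
      rw [gw, norm_smul, hu, mul_one, Real.norm_eq_abs, abs_of_pos hr])
  rw [hfr] at h1 h2
  have h3 : ∫ r in Ioi (0 : ℝ), r ^ (d - 1) * (r⁻¹ * Real.exp (-r ^ 2 / 2)) = gm (d - 2) := by
    rw [gm]
    refine setIntegral_congr_fun measurableSet_Ioi (fun r hr => ?_)
    have hr0 : r ≠ 0 := (mem_Ioi.1 hr).ne'
    rw [show d - 1 = (d - 2) + 1 by omega, pow_succ]
    field_simp
  have h4 : ∫ r in Ioi (0 : ℝ), r ^ (d - 1) * Real.exp (-r ^ 2 / 2) = gm (d - 1) := rfl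
  rw [h3] at h1
  rw [h4] at h2
  rw [(ps13_mom0 (E := E)).2, hfr] at h2
  set A := ∫ _ : sphere (0 : E) 1, (1 : ℝ) ∂(volume : Measure E).toSphere with hA
  have hpi : (0 : ℝ) < (2 * π) ^ ((d : ℝ) / 2) := by positivity
  have hg1 := gm_pos (d - 1)
  have hg2 := gm_pos (d - 2)
  have hA0 : 0 < A := by
    rw [h2] at hpi
    exact (pos_iff_pos_of_mul_pos hpi).2 hg1
  constructor
  · by_contra hcon
    rw [integral_undef hcon] at h1
    have := mul_pos hA0 hg2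
    linarith
  · rw [h1, h2]
    have h5 := ps13_gm_sq (d - 3)
    have h6 := gm_succ_succ (d - 3)
    rw [show d - 3 + 1 = d - 2 by omega, show d - 3 + 2 = d - 1 by omega] at h5
    rw [show d - 3 + 2 = d - 1 by omega] at h6
    have hc : ((d - 3 : ℕ) : ℝ) + 1 = (d : ℝ) - 2 := by
      rw [Nat.cast_sub hd]; push_cast; ring
    rw [hc] at h6
    have hd2 : (0 : ℝ) < (d : ℝ) - 2 := by
      have : (3 : ℝ) ≤ d := by exact_mod_cast hd
      linarith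
    have h7 : gm (d - 2) ≤ gm (d - 1) / √((d : ℝ) - 2) := by
      rw [le_div_iff₀ (Real.sqrt_pos.2 hd2)]
      apply le_of_sq_le_sq _ hg1.le
      rw [mul_pow, Real.sq_sqrt hd2.le]
      calc gm (d - 2) ^ 2 * ((d : ℝ) - 2) ≤ gm (d - 3) * gm (d - 1) * ((d : ℝ) - 2) :=
            mul_le_mul_of_nonneg_right h5 hd2.le
        _ = gm (d - 1) * (((d : ℝ) - 2) * gm (d - 3)) := by ring
        _ = gm (d - 1) ^ 2 := by rw [← h6]; ring
    calc A * gm (d - 2) ≤ A * (gm (d - 1) / √((d : ℝ) - 2)) :=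
          mul_le_mul_of_nonneg_left h7 hA0.le
      _ = _ := by ring

theorem JJ_inv (m : ℕ) (hm : 2 ≤ m) :
    JJ (2 * m) (fun τ y => (‖y‖ ^ 2 + τ ^ 2) ^ m * ‖y‖⁻¹)
      ≤ ENNReal.ofReal ((2 * π) ^ ((((2 * m : ℕ) : ℝ) + 1) / 2) * ((3 * m) ^ m / √(2 * m - 2))) := by
  have hm0 : (0 : ℝ) < m := by
    have : 0 < m := by omega
    exact_mod_cast this
  have hm2 : (0 : ℝ) < 2 * m - 2 := by
    have : (2 : ℝ) ≤ m := by exact_mod_cast hm
    linarith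
  obtain ⟨hi1, hi2⟩ := ps13_inv (2 * m) (by omega)
  have ha : (0 : ℝ) < 1 / 2 := by norm_num
  have hU := ps13_l0 (E := ℝ) ha
  have hV := ps13_lint (E := EuclideanSpace ℝ (Fin (2 * m))) (f := fun y => ‖y‖⁻¹) (κ := -1)
    (fun x => by positivity)
    (fun s hs x => by
      rw [norm_smul, Real.norm_eq_abs, abs_of_pos hs, mul_inv, Real.rpow_neg_one]) hi1 ha
  simp only [finrank_self, finrank_euclideanSpace_fin, Nat.cast_one, Real.norm_eq_abs,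
    sq_abs] at hU hV
  rw [JJ]
  set c : ℝ := (4 * m / Real.exp 1) ^ m with hc
  have hc0 : 0 ≤ c := by positivity
  have hW : ∀ W : ℝ, 0 ≤ W → W ^ m ≤ c * Real.exp (W / 4) := by
    intro W hW
    have h1 : W / (4 * m) ≤ Real.exp (W / (4 * m) - 1) := by
      have := Real.add_one_le_exp (W / (4 * m) - 1)
      linarith
    have h2 : W ≤ 4 * m / Real.exp 1 * Real.exp (W / (4 * m)) := by
      rw [Real.exp_sub] at h1
      rw [div_le_iff₀ (by positivity)] at h1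
      calc W ≤ Real.exp (W / (4 * m)) / Real.exp 1 * (4 * m) := h1
        _ = _ := by ring
    calc W ^ m ≤ (4 * m / Real.exp 1 * Real.exp (W / (4 * m))) ^ m := pow_le_pow_left₀ hW h2 m
      _ = c * Real.exp (W / 4) := by
          rw [mul_pow, ← Real.exp_nat_mul, hc]
          congr 2
          field_simp
  have h1 : ∀ (τ : ℝ) (y : EuclideanSpace ℝ (Fin (2 * m))),
      ENNReal.ofReal ((‖y‖ ^ 2 + τ ^ 2) ^ m * ‖y‖⁻¹ * (gw y * Real.exp (-τ ^ 2 / 2))) ≤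
      ENNReal.ofReal ((c * Real.exp (-(1 / 2 * τ ^ 2) / 2)) *
        (‖y‖⁻¹ * Real.exp (-(1 / 2 * ‖y‖ ^ 2) / 2))) := by
    intro τ y
    apply ENNReal.ofReal_le_ofReal
    have h2 := hW (‖y‖ ^ 2 + τ ^ 2) (by positivity)
    calc (‖y‖ ^ 2 + τ ^ 2) ^ m * ‖y‖⁻¹ * (gw y * Real.exp (-τ ^ 2 / 2)) ≤
        (c * Real.exp ((‖y‖ ^ 2 + τ ^ 2) / 4)) * ‖y‖⁻¹ * (gw y * Real.exp (-τ ^ 2 / 2)) := by
          apply mul_le_mul_of_nonneg_right _ (by unfold gw; positivity)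
          exact mul_le_mul_of_nonneg_right h2 (by positivity)
      _ = c * ‖y‖⁻¹ * (Real.exp ((‖y‖ ^ 2 + τ ^ 2) / 4) * (gw y * Real.exp (-τ ^ 2 / 2))) := by
          ring
      _ = c * ‖y‖⁻¹ * (Real.exp (-(1 / 2 * τ ^ 2) / 2) * Real.exp (-(1 / 2 * ‖y‖ ^ 2) / 2)) := by
          rw [gw, ← Real.exp_add, ← Real.exp_add, ← Real.exp_add]
          congr 2
          ring
      _ = _ := by ring
  have hU' : ∫⁻ τ : ℝ, ENNReal.ofReal (c * Real.exp (-(1 / 2 * τ ^ 2) / 2)) =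
      ENNReal.ofReal (c * ((1 / 2) ^ (-((1 : ℝ) / 2)) * (2 * π) ^ ((1 : ℝ) / 2))) := by
    simp only [ENNReal.ofReal_mul hc0]
    rw [lintegral_const_mul' _ _ ENNReal.ofReal_ne_top, hU]
  refine (lintegral_mono fun τ => lintegral_mono fun y => h1 τ y).trans ?_
  rw [ps13_prod _ _ (fun τ => by positivity) (by positivity) hU' hV]
  apply ENNReal.ofReal_le_ofReal
  have hpi : (0 : ℝ) < 2 * π := by positivity
  have hcast : ((2 * m : ℕ) : ℝ) - 2 = 2 * m - 2 := by push_cast; ring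
  rw [hcast] at hi2
  calc c * ((1 / 2) ^ (-((1 : ℝ) / 2)) * (2 * π) ^ ((1 : ℝ) / 2)) *
        ((1 / 2) ^ (-((((2 * m : ℕ) : ℝ) + -1) / 2)) *
          ∫ y : EuclideanSpace ℝ (Fin (2 * m)), ‖y‖⁻¹ * gw y) ≤
      c * ((1 / 2) ^ (-((1 : ℝ) / 2)) * (2 * π) ^ ((1 : ℝ) / 2)) *
        ((1 / 2) ^ (-((((2 * m : ℕ) : ℝ) + -1) / 2)) *
          ((2 * π) ^ (((2 * m : ℕ) : ℝ) / 2) / √(2 * m - 2))) := by
        apply mul_le_mul_of_nonneg_left _ (by positivity)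
        exact mul_le_mul_of_nonneg_left hi2 (by positivity)
    _ = (2 * π) ^ ((((2 * m : ℕ) : ℝ) + 1) / 2) * (c * 2 ^ m / √(2 * m - 2)) := by
        have e1 : (2 * π) ^ ((((2 * m : ℕ) : ℝ) + 1) / 2) =
            (2 * π) ^ ((1 : ℝ) / 2) * (2 * π) ^ (((2 * m : ℕ) : ℝ) / 2) := by
          rw [← Real.rpow_add hpi]; congr 1; ring
        have e2 : ((1 : ℝ) / 2) ^ (-((1 : ℝ) / 2)) * (1 / 2) ^ (-((((2 * m : ℕ) : ℝ) + -1) / 2)) =
            2 ^ m := by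
          rw [← Real.rpow_add (by norm_num), one_div, Real.inv_rpow (by norm_num),
            ← Real.rpow_neg (by norm_num), ← Real.rpow_natCast]
          congr 1
          push_cast
          ring
        rw [e1, ← e2]
        ring
    _ ≤ _ := by
        apply mul_le_mul_of_nonneg_left _ (by positivity)
        apply div_le_div_of_nonneg_right _ (Real.sqrt_nonneg _)
        rw [hc, ← mul_pow]
        apply pow_le_pow_left₀ (by positivity)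
        rw [div_mul_eq_mul_div, div_le_iff₀ (Real.exp_pos 1)]
        have := Real.exp_one_gt_d9
        nlinarith

end Pool.Agent.Helper19.PS
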